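import Mathlib
import Pool.Agent.TeamU.BDefs
import Pool.Agent.TeamU.B7
import Pool.Agent.U426.TU.Stm2

/-! Project TU (helper426), package IDX (helper98): the index of the group of local squares. -/

set_option autoImplicit false

open NumberField IsDedekindDomain Module Pool.Agent.TeamU

namespace Pool.Agent.U98.TU.IDX

open Pool.Agent.U426.TU

section
variable {M : Type*} [Field M] [NumberField M] (v : HeightOneSpectrum (𝓞 M))

/-- the exponent of `v` in `2` -/
noncomputable def ee : ℕ :=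
  (Associates.mk v.asIdeal).count (Associates.mk (Ideal.span {(2 : 𝓞 M)})).factors

theorem int_two : v.intValuation (2 : 𝓞 M) = WithZero.exp (-(ee v : ℤ)) := by
  rw [v.intValuation_if_neg two_ne_zero]
  rfl

theorem val_two : v.valuation M (2 : M) = WithZero.exp (-(ee v : ℤ)) := by
  have e : (2 : M) = algebraMap (𝓞 M) M 2 := (map_ofNat (algebraMap (𝓞 M) M) 2).symm
  rw [e, HeightOneSpectrum.valuation_of_algebraMap, int_two]

theorem val_four : v.valuation M (4 : M) = WithZero.exp (-((2 * ee v : ℕ) : ℤ)) := by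
  have e : (4 : M) = 2 * 2 := by norm_num
  rw [e, map_mul, val_two, ← WithZero.exp_add]
  congr 1
  push_cast
  ring

theorem val_four_le : v.valuation M (4 : M) ≤ 1 := by
  rw [val_four, ← WithZero.exp_zero, WithZero.exp_le_exp]
  have : (0 : ℤ) ≤ ((2 * ee v : ℕ) : ℤ) := Int.natCast_nonneg _
  linarith

theorem lsq_one : LSq v (1 : M) :=
  ⟨1, 1, by simp, one_ne_zero, by
    rw [sub_self, map_zero, val_four]
    exact WithZero.exp_pos⟩

theorem lsq_mul {x y : M} (hx : LSq v x) (hy : LSq v y) : LSq v (x * y) := by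
  obtain ⟨a, u, rfl, ha, hu⟩ := hx
  obtain ⟨b, w, rfl, hb, hw⟩ := hy
  refine ⟨a * b, u * w, by ring, mul_ne_zero ha hb, ?_⟩
  have hw1 := B7.near_val v (lt_of_lt_of_le hw (val_four_le v))
  have e : u * w - 1 = (u - 1) * w + (w - 1) := by ring
  rw [e]
  refine Valuation.map_add_lt _ ?_ hw
  rw [map_mul, hw1, mul_one]
  exact hu

theorem lsq_inv {x : M} (hx : LSq v x) : LSq v x⁻¹ := by
  obtain ⟨a, u, rfl, ha, hu⟩ := hx
  have hu1 := B7.near_val v (lt_of_lt_of_le hu (val_four_le v))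
  have hu0 : u ≠ 0 := by rintro rfl; simp at hu1
  refine ⟨a⁻¹, u⁻¹, by rw [mul_inv, inv_pow], inv_ne_zero ha, ?_⟩
  have e : u⁻¹ - 1 = (1 - u) * u⁻¹ := by field_simp
  rw [e, map_mul, map_inv₀, hu1, inv_one, mul_one, Valuation.map_sub_swap]
  exact hu

/-- the group of local squares -/
def W : Subgroup Mˣ where
  carrier := {x | LSq v (x : M)}
  mul_mem' := by
    intro a b ha hb
    simpa using lsq_mul v ha hb
  one_mem' := by simpa using lsq_one v
  inv_mem' := by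
    intro a ha
    simpa using lsq_inv v ha

theorem mem_W {x : Mˣ} : x ∈ W v ↔ LSq v (x : M) := Iff.rfl

/-- the norm of the `v`-part of `2` -/
noncomputable def A : ℕ := Ideal.absNorm (v.maxPowDividing (Ideal.span {(2 : 𝓞 M)}))

theorem A_eq : A v = Ideal.absNorm v.asIdeal ^ ee v := by
  unfold A HeightOneSpectrum.maxPowDividing
  rw [map_pow]
  rfl

theorem span_two_ne : Ideal.span {(2 : 𝓞 M)} ≠ 0 := by
  rw [Ne, Ideal.zero_eq_bot, Ideal.span_singleton_eq_bot]
  exact two_ne_zero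

theorem absNorm_two : Ideal.absNorm (Ideal.span {(2 : 𝓞 M)}) = 2 ^ finrank ℚ M := by
  rw [Ideal.absNorm_span_singleton]
  have e : (2 : 𝓞 M) = algebraMap ℤ (𝓞 M) 2 := by simp
  have e2 : (Algebra.norm ℤ (2 : 𝓞 M)).natAbs = 2 ^ finrank ℤ (𝓞 M) := by
    rw [e, Algebra.norm_algebraMap, Int.natAbs_pow]
    rfl
  rw [e2, RingOfIntegers.rank]

theorem maxPow_dvd : v.maxPowDividing (Ideal.span {(2 : 𝓞 M)}) ∣ Ideal.span {(2 : 𝓞 M)} := by
  unfold HeightOneSpectrum.maxPowDividing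
  rw [← v.intValuation_le_pow_iff_dvd, int_two]
  rfl

theorem A_log : 2 ^ Nat.log 2 (A v) = A v := by
  have h : A v ∣ 2 ^ finrank ℚ M := by
    rw [← absNorm_two]
    exact map_dvd Ideal.absNorm (maxPow_dvd v)
  obtain ⟨k, -, hk⟩ := (Nat.dvd_prime_pow Nat.prime_two).1 h
  rw [hk, Nat.log_pow (by norm_num)]

theorem ee_zero (h : (2 : 𝓞 M) ∉ v.asIdeal) : ee v = 0 := by
  have h1 : v.intValuation (2 : 𝓞 M) = 1 := by
    rw [HeightOneSpectrum.intValuation_eq_one_iff]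
    exact h
  rw [int_two, ← WithZero.exp_zero, WithZero.exp_inj, neg_eq_zero, Nat.cast_eq_zero] at h1
  exact h1

/-! counting square roots of one -/

theorem index_range_eq {G : Type*} [CommGroup G] [Finite G] :
    (powMonoidHom 2 : G →* G).range.index = Nat.card (powMonoidHom 2 : G →* G).ker := by
  have h1 := Subgroup.card_mul_index (powMonoidHom 2 : G →* G).ker
  have h2 := Subgroup.card_mul_index (powMonoidHom 2 : G →* G).range
  rw [Subgroup.index_ker] at h1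
  rw [← h1, mul_comm] at h2
  exact Nat.eq_of_mul_eq_mul_right Nat.card_pos h2

theorem card_quot (n : ℕ) : Nat.card (𝓞 M ⧸ v.asIdeal ^ n) = Ideal.absNorm v.asIdeal ^ n := by
  rw [← map_pow, Ideal.absNorm_apply, Submodule.cardQuot_apply]

theorem finite_quot (n : ℕ) : Finite (𝓞 M ⧸ v.asIdeal ^ n) :=
  Ideal.finiteQuotientOfFreeOfNeBot _ (pow_ne_zero n v.ne_bot)

/-- the kernel of `O/v^(2e+1) → O/v^(e+1)` has `q^e` elements -/
theorem card_ker (m n : ℕ) (h : m ≤ n) :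
    Nat.card (RingHom.ker (Ideal.Quotient.factor (Ideal.pow_le_pow_right (I := v.asIdeal) h))) =
      Ideal.absNorm v.asIdeal ^ (n - m) := by
  set φ := Ideal.Quotient.factor (Ideal.pow_le_pow_right (I := v.asIdeal) h) with hφ
  have hfin := finite_quot v n
  have hsurj : Function.Surjective φ := Ideal.Quotient.factor_surjective _
  have h1 := AddSubgroup.card_mul_index (φ : (𝓞 M ⧸ v.asIdeal ^ n) →+ (𝓞 M ⧸ v.asIdeal ^ m)).ker
  rw [AddSubgroup.index_ker, card_quot] at h1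
  have h2 : Nat.card (φ : (𝓞 M ⧸ v.asIdeal ^ n) →+ (𝓞 M ⧸ v.asIdeal ^ m)).range =
      Ideal.absNorm v.asIdeal ^ m := by
    have : (φ : (𝓞 M ⧸ v.asIdeal ^ n) →+ (𝓞 M ⧸ v.asIdeal ^ m)).range = ⊤ :=
      AddMonoidHom.range_eq_top.2 hsurj
    rw [this, AddSubgroup.card_top, card_quot]
  rw [h2] at h1
  have hpos : 0 < Ideal.absNorm v.asIdeal ^ m := by
    apply pow_pos
    have := v.ne_bot
    rw [Nat.pos_iff_ne_zero, Ne, Ideal.absNorm_eq_zero_iff]
    exact this
  apply Nat.eq_of_mul_eq_mul_right hpos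
  rw [← pow_add, Nat.sub_add_cancel h, ← h1]
  rfl

/-- square roots of one modulo `v^(2e+1)` -/
theorem root_cases {a : 𝓞 M} (h : a * (a + 2) ∈ v.asIdeal ^ (2 * ee v + 1)) :
    a ∈ v.asIdeal ^ (ee v + 1) ∨ a + 2 ∈ v.asIdeal ^ (ee v + 1) := by
  by_contra hcon
  push Not at hcon
  obtain ⟨h1, h2⟩ := hcon
  rw [← v.intValuation_le_pow_iff_mem] at h h1 h2
  have h2v := int_two v
  have key : ∀ x : WithZero (Multiplicative ℤ), ¬ x ≤ WithZero.exp (-((ee v + 1 : ℕ) : ℤ)) →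
      WithZero.exp (-(ee v : ℤ)) ≤ x := by
    intro x hx
    rw [not_le] at hx
    have := WithZero.lt_mul_exp_iff_le (x := WithZero.exp (-((ee v + 1 : ℕ) : ℤ)))
      (y := x) (ne_of_gt (lt_of_le_of_lt zero_le hx))
    by_contra hlt
    rw [not_le] at hlt
    have h3 := WithZero.lt_mul_exp_iff_le (x := x)
      (y := WithZero.exp (-((ee v + 1 : ℕ) : ℤ))) WithZero.exp_ne_zero
    rw [← WithZero.exp_add] at h3
    have e : -((ee v + 1 : ℕ) : ℤ) + 1 = -(ee v : ℤ) := by push_cast; ring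
    rw [e] at h3
    exact absurd (h3.1 hlt) (not_le.2 hx)
  have h1' := key _ h1
  have h2' := key _ h2
  rw [map_mul] at h
  have h3 : WithZero.exp (-(ee v : ℤ)) * WithZero.exp (-(ee v : ℤ)) ≤
      v.intValuation a * v.intValuation (a + 2) := by gcongr
  have h4 := h3.trans h
  rw [← WithZero.exp_add, WithZero.exp_le_exp] at h4
  push_cast at h4
  linarith

theorem card_roots : Nat.card {u : 𝓞 M ⧸ v.asIdeal ^ (2 * ee v + 1) // u ^ 2 = 1} ≤ 2 * A v := by
  classical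
  have hfin := finite_quot v (2 * ee v + 1)
  have hle : ee v + 1 ≤ 2 * ee v + 1 := by omega
  set φ := Ideal.Quotient.factor (Ideal.pow_le_pow_right (I := v.asIdeal) hle) with hφ
  have hcard := card_ker v (ee v + 1) (2 * ee v + 1) hle
  rw [← hφ] at hcard
  have hsub : 2 * ee v + 1 - (ee v + 1) = ee v := by omega
  rw [hsub, ← A_eq] at hcard
  have hker : Finite (RingHom.ker φ) := inferInstance
  let F : Bool × RingHom.ker φ → {u : 𝓞 M ⧸ v.asIdeal ^ (2 * ee v + 1) // u ^ 2 = 1} ⊕ Unit :=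
    fun z => if h : ((if z.1 then (z.2 : 𝓞 M ⧸ v.asIdeal ^ (2 * ee v + 1)) + 1 else (z.2 : 𝓞 M ⧸ v.asIdeal ^ (2 * ee v + 1)) - 1)) ^ 2 = 1 then Sum.inl ⟨_, h⟩ else Sum.inr ()
  have hex : ∀ u : {u : 𝓞 M ⧸ v.asIdeal ^ (2 * ee v + 1) // u ^ 2 = 1},
      ∃ z : Bool × RingHom.ker φ,
        (if z.1 then (z.2 : 𝓞 M ⧸ v.asIdeal ^ (2 * ee v + 1)) + 1
          else (z.2 : 𝓞 M ⧸ v.asIdeal ^ (2 * ee v + 1)) - 1) = u.1 := by
    rintro ⟨u, hu⟩
    obtain ⟨b, rfl⟩ := Ideal.Quotient.mk_surjective u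
    have h1 : (b - 1) * ((b - 1) + 2) ∈ v.asIdeal ^ (2 * ee v + 1) := by
      rw [← Ideal.Quotient.eq_zero_iff_mem]
      have : (b - 1) * ((b - 1) + 2) = b ^ 2 - 1 := by ring
      rw [this, map_sub, map_pow, hu, map_one, sub_self]
    rcases root_cases v h1 with h | h
    · refine ⟨(true, ⟨Ideal.Quotient.mk _ (b - 1), ?_⟩), ?_⟩
      · rw [RingHom.mem_ker, hφ, Ideal.Quotient.factor_mk, Ideal.Quotient.eq_zero_iff_mem]
        exact h
      · simp
    · refine ⟨(false, ⟨Ideal.Quotient.mk _ (b - 1 + 2), ?_⟩), ?_⟩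
      · rw [RingHom.mem_ker, hφ, Ideal.Quotient.factor_mk, Ideal.Quotient.eq_zero_iff_mem]
        exact h
      · simp only [Bool.false_eq_true, if_false]
        rw [← map_one (Ideal.Quotient.mk (v.asIdeal ^ (2 * ee v + 1))), ← map_sub]
        congr 1
        ring
  choose g hg using hex
  have hinj : Function.Injective g := by
    intro a b hab
    apply Subtype.ext
    rw [← hg a, ← hg b, hab]
  have := Nat.card_le_card_of_injective g hinj
  refine this.trans ?_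
  rw [Nat.card_prod, hcard]
  simp

theorem index_units : (powMonoidHom 2 : (𝓞 M ⧸ v.asIdeal ^ (2 * ee v + 1))ˣ →*
    (𝓞 M ⧸ v.asIdeal ^ (2 * ee v + 1))ˣ).range.index ≤ 2 * A v := by
  have hfin := finite_quot v (2 * ee v + 1)
  rw [index_range_eq]
  refine le_trans ?_ (card_roots v)
  let g : (powMonoidHom 2 : (𝓞 M ⧸ v.asIdeal ^ (2 * ee v + 1))ˣ →*
    (𝓞 M ⧸ v.asIdeal ^ (2 * ee v + 1))ˣ).ker →
    {u : 𝓞 M ⧸ v.asIdeal ^ (2 * ee v + 1) // u ^ 2 = 1} := fun u => ⟨(u.1 : _), by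
      have h := u.2
      rw [MonoidHom.mem_ker, powMonoidHom_apply] at h
      rw [← Units.val_pow_eq_pow_val, h, Units.val_one]⟩
  apply Nat.card_le_card_of_injective g
  intro a b hab
  apply Subtype.ext
  apply Units.ext
  exact congrArg Subtype.val hab

/-- approximation of units by integers -/
theorem approx {u : M} (hu : v.valuation M u = 1) (n : ℕ) :
    ∃ a : 𝓞 M, v.valuation M (u - (a : M)) ≤ WithZero.exp (-(n : ℤ)) ∧
      (a : 𝓞 M) ∉ v.asIdeal ∨ v.valuation M (u - (a : M)) ≤ WithZero.exp (-(n : ℤ)) ∧ n = 0 := by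
  obtain ⟨a, ha⟩ := v.exists_valuation_sub_lt_of_integer hu.le
    (Units.mk0 (WithZero.exp (-(n : ℤ))) WithZero.exp_ne_zero)
  rw [Valuation.map_sub_swap] at ha
  refine ⟨a, ?_⟩
  rcases Nat.eq_zero_or_pos n with h0 | hpos
  · right
    exact ⟨le_of_lt (by simpa using ha), h0⟩
  · left
    refine ⟨le_of_lt (by simpa using ha), ?_⟩
    intro hmem
    rw [← HeightOneSpectrum.valuation_lt_one_iff_mem (K := M)] at hmem
    have e : u = (u - a) + a := by ring
    have h1 : v.valuation M (u - (a : M)) < 1 := by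
      refine lt_of_lt_of_le ha ?_
      rw [Units.val_mk0, ← WithZero.exp_zero, WithZero.exp_le_exp]
      simp
    have : v.valuation M u < 1 := by
      rw [e]
      exact Valuation.map_add_lt _ h1 hmem
    exact absurd hu this.ne

theorem val_of_notMem {a : 𝓞 M} (h : a ∉ v.asIdeal) : v.valuation M (a : M) = 1 := by
  apply le_antisymm (HeightOneSpectrum.valuation_le_one v a)
  by_contra hlt
  rw [not_le, HeightOneSpectrum.valuation_lt_one_iff_mem] at hlt
  exact h hlt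

theorem isUnit_mk {n : ℕ} {a : 𝓞 M} (h : a ∉ v.asIdeal) :
    IsUnit (Ideal.Quotient.mk (v.asIdeal ^ n) a) := by
  have hmax : v.asIdeal.IsMaximal := v.isMaximal
  obtain ⟨y, i, hi, hyi⟩ := hmax.exists_inv h
  have h1 : Ideal.Quotient.mk (v.asIdeal ^ n) y * Ideal.Quotient.mk (v.asIdeal ^ n) a =
      1 - Ideal.Quotient.mk (v.asIdeal ^ n) i := by
    rw [← map_mul, ← map_one (Ideal.Quotient.mk (v.asIdeal ^ n)), ← map_sub, ← hyi]
    congr 1
    ring
  have hnil : IsNilpotent (Ideal.Quotient.mk (v.asIdeal ^ n) i) :=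
    ⟨n, by rw [← map_pow, Ideal.Quotient.eq_zero_iff_mem]; exact Ideal.pow_mem_pow hi n⟩
  have h2 := hnil.isUnit_one_sub
  rw [← h1] at h2
  exact isUnit_of_mul_isUnit_right h2

theorem mk_eq_val {n : ℕ} {a b : 𝓞 M}
    (h : Ideal.Quotient.mk (v.asIdeal ^ n) a = Ideal.Quotient.mk (v.asIdeal ^ n) b) :
    v.valuation M ((a : M) - b) ≤ WithZero.exp (-(n : ℤ)) := by
  have h1 : a - b ∈ v.asIdeal ^ n := by
    rw [← Ideal.Quotient.eq_zero_iff_mem, map_sub, h, sub_self]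
  rw [← v.intValuation_le_pow_iff_mem] at h1
  have := HeightOneSpectrum.valuation_of_algebraMap (K := M) v (a - b)
  rw [← this] at h1
  simpa using h1

omit [NumberField M] in
theorem notMem_of_unit {n : ℕ} (hn : n ≠ 0) (g : (𝓞 M ⧸ v.asIdeal ^ n)ˣ) {b : 𝓞 M}
    (hb : Ideal.Quotient.mk (v.asIdeal ^ n) b = g) : b ∉ v.asIdeal := by
  intro hmem
  obtain ⟨c, hc⟩ := Ideal.Quotient.mk_surjective (g⁻¹ : (𝓞 M ⧸ v.asIdeal ^ n)ˣ).val
  have h1 : Ideal.Quotient.mk (v.asIdeal ^ n) (b * c - 1) = 0 := by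
    rw [map_sub, map_mul, hb, hc, map_one, Units.mul_inv, sub_self]
  rw [Ideal.Quotient.eq_zero_iff_mem] at h1
  have h2 : b * c - 1 ∈ v.asIdeal := Ideal.pow_le_self hn h1
  have h3 : (1 : 𝓞 M) ∈ v.asIdeal := by
    have := v.asIdeal.sub_mem (v.asIdeal.mul_mem_right c hmem) h2
    simpa using this
  exact v.isPrime.ne_top ((Ideal.eq_top_iff_one _).2 h3)

theorem index_W : (W v).index ≠ 0 ∧ (W v).index ≤ 2 ^ (2 + Nat.log 2 (A v)) := by
  classical
  obtain ⟨p, hp⟩ := v.valuation_exists_uniformizer M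
  have hp0 : p ≠ 0 := by
    rintro rfl
    rw [map_zero] at hp
    exact WithZero.exp_ne_zero hp.symm
  have hfin := finite_quot v (2 * ee v + 1)
  set H := (powMonoidHom 2 : (𝓞 M ⧸ v.asIdeal ^ (2 * ee v + 1))ˣ →*
    (𝓞 M ⧸ v.asIdeal ^ (2 * ee v + 1))ˣ).range with hH
  have hidx := index_units v
  rw [← hH] at hidx
  have hlift : ∀ g : (𝓞 M ⧸ v.asIdeal ^ (2 * ee v + 1))ˣ, ∃ b : 𝓞 M,
      Ideal.Quotient.mk (v.asIdeal ^ (2 * ee v + 1)) b = g :=
    fun g => Ideal.Quotient.mk_surjective _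
  choose L hL using hlift
  have hLmem : ∀ g, L g ∉ v.asIdeal := fun g => notMem_of_unit v (by omega) g (hL g)
  have hLne : ∀ g, ((L g : 𝓞 M) : M) ≠ 0 := by
    intro g h0
    have := val_of_notMem v (hLmem g)
    rw [h0, map_zero] at this
    exact zero_ne_one this
  have hFq : Finite ((𝓞 M ⧸ v.asIdeal ^ (2 * ee v + 1))ˣ ⧸ H) := inferInstance
  let _ : Fintype ((𝓞 M ⧸ v.asIdeal ^ (2 * ee v + 1))ˣ ⧸ H) := Fintype.ofFinite _
  have key := B7.index_le_of_cover (W v) (ι := Fin 2 × ((𝓞 M ⧸ v.asIdeal ^ (2 * ee v + 1))ˣ ⧸ H))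
    (fun i => Units.mk0 (p ^ (i.1 : ℕ) * ((L i.2.out : 𝓞 M) : M))
      (mul_ne_zero (pow_ne_zero _ hp0) (hLne _))) ?_
  · refine ⟨key.1, key.2.trans ?_⟩
    rw [Fintype.card_prod, Fintype.card_fin, ← Nat.card_eq_fintype_card]
    have h1 : Nat.card ((𝓞 M ⧸ v.asIdeal ^ (2 * ee v + 1))ˣ ⧸ H) = H.index := rfl
    have h2 : 2 ^ (2 + Nat.log 2 (A v)) = 4 * A v := by rw [pow_add, A_log]; norm_num
    rw [h1, h2]
    omega
  · intro x
    obtain ⟨k, e, u, hu, hx⟩ := B7.exists_parity v x p hp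
    obtain ⟨a, ha⟩ := approx v hu (2 * ee v + 1)
    obtain ⟨ha1, ha2⟩ : v.valuation M (u - (a : M)) ≤ WithZero.exp (-((2 * ee v + 1 : ℕ) : ℤ)) ∧
        a ∉ v.asIdeal := by
      rcases ha with h | h
      · exact h
      · exact absurd h.2 (by omega)
    obtain ⟨ga, hga⟩ := isUnit_mk v (n := 2 * ee v + 1) ha2
    set c : (𝓞 M ⧸ v.asIdeal ^ (2 * ee v + 1))ˣ ⧸ H := QuotientGroup.mk ga with hc
    have hc2 : (c.out)⁻¹ * ga ∈ H := by
      rw [← QuotientGroup.eq, QuotientGroup.out_eq']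
    obtain ⟨s, hs⟩ := hc2
    rw [powMonoidHom_apply] at hs
    have hs2 : ga = c.out * s ^ 2 := by rw [hs]; simp
    refine ⟨(e, c), ?_⟩
    rw [mem_W]
    have hmk : Ideal.Quotient.mk (v.asIdeal ^ (2 * ee v + 1)) a =
        Ideal.Quotient.mk (v.asIdeal ^ (2 * ee v + 1)) (L c.out * (L s) ^ 2) := by
      rw [map_mul, map_pow, hL, hL, ← hga, hs2]
      push_cast
      rfl
    have h3 := mk_eq_val v hmk
    have hvL := val_of_notMem v (hLmem c.out)
    have hvs := val_of_notMem v (hLmem s)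
    have hw : v.valuation M (((L c.out : 𝓞 M) : M) * ((L s : 𝓞 M) : M) ^ 2) = 1 := by
      rw [map_mul, map_pow, hvL, hvs, one_pow, mul_one]
    have h4 : v.valuation M (u - ((L c.out : 𝓞 M) : M) * ((L s : 𝓞 M) : M) ^ 2) ≤
        WithZero.exp (-((2 * ee v + 1 : ℕ) : ℤ)) := by
      have e1 : u - ((L c.out : 𝓞 M) : M) * ((L s : 𝓞 M) : M) ^ 2 =
          (u - a) + ((a : M) - ((L c.out * (L s) ^ 2 : 𝓞 M) : M)) := by
        push_cast
        ring
      rw [e1]
      exact Valuation.map_add_le _ ha1 h3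
    refine ⟨p ^ k * ((L s : 𝓞 M) : M),
      u / (((L c.out : 𝓞 M) : M) * ((L s : 𝓞 M) : M) ^ 2), ?_,
      mul_ne_zero (zpow_ne_zero _ hp0) (hLne s), ?_⟩
    · have h5 := hLne s
      have h6 := hLne c.out
      simp only [Units.val_mul, Units.val_inv_eq_inv_val, Units.val_mk0]
      rw [hx]
      field_simp
    · have hw0 : ((L c.out : 𝓞 M) : M) * ((L s : 𝓞 M) : M) ^ 2 ≠ 0 :=
        mul_ne_zero (hLne _) (pow_ne_zero _ (hLne _))
      have e2 : u / (((L c.out : 𝓞 M) : M) * ((L s : 𝓞 M) : M) ^ 2) - 1 =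
          (u - ((L c.out : 𝓞 M) : M) * ((L s : 𝓞 M) : M) ^ 2) /
            (((L c.out : 𝓞 M) : M) * ((L s : 𝓞 M) : M) ^ 2) := by
        rw [sub_div, div_self hw0]
      rw [e2, map_div₀, hw, div_one, val_four]
      refine lt_of_le_of_lt h4 ?_
      rw [WithZero.exp_lt_exp]
      push_cast
      linarith

theorem sum_log (S : Finset (HeightOneSpectrum (𝓞 M)))
    (hS : ∀ v : HeightOneSpectrum (𝓞 M), (2 : 𝓞 M) ∈ v.asIdeal → v ∈ S) :
    ∑ v ∈ S, Nat.log 2 (A v) = finrank ℚ M := by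
  classical
  have key : Ideal.absNorm (Ideal.span {(2 : 𝓞 M)}) = ∏ v ∈ S, A v := by
    conv_lhs => rw [← Ideal.finprod_heightOneSpectrum_factorization (span_two_ne (M := M))]
    have hsub : Function.mulSupport
        (fun v : HeightOneSpectrum (𝓞 M) => v.maxPowDividing (Ideal.span {(2 : 𝓞 M)})) ⊆
        (S : Set (HeightOneSpectrum (𝓞 M))) := by
      intro v hv
      by_contra h
      apply hv
      have h0 := ee_zero v (fun h2 => h (hS v h2))
      simp only [HeightOneSpectrum.maxPowDividing]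
      unfold ee at h0
      rw [h0, pow_zero]
    rw [finprod_eq_prod_of_mulSupport_subset _ hsub, map_prod]
    rfl
  rw [absNorm_two] at key
  have h2 : ∏ v ∈ S, A v = 2 ^ ∑ v ∈ S, Nat.log 2 (A v) := by
    rw [← Finset.prod_pow_eq_pow_sum]
    exact Finset.prod_congr rfl fun v _ => (A_log v).symm
  rw [h2] at key
  exact (Nat.pow_right_injective (le_refl 2) key).symm

end

theorem t_IDX : S_IDX := by
  intro M _ _
  refine ⟨fun v => W v, fun v => 2 + Nat.log 2 (A v), fun v x => Iff.rfl, fun v => index_W v,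
    ?_, ?_⟩
  · intro v hv
    have h : A v = 1 := by rw [A_eq, ee_zero v hv, pow_zero]
    change 2 + Nat.log 2 (A v) = 2
    rw [h]
    simp
  · intro S hS
    rw [Finset.sum_add_distrib, sum_log S hS, Finset.sum_const, smul_eq_mul, mul_comm]

end Pool.Agent.U98.TU.IDX
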