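import Mathlib
import Pool.Agent.TeamU.BDefs
import Pool.Agent.TeamU.B5a
import Pool.Agent.U426.TU.Stm2

/-! Project TU (helper426), package SPL (helper98): a local square splits. -/

set_option autoImplicit false

open NumberField IsDedekindDomain Module Pool.Agent.TeamU

namespace Pool.Agent.U98.TU.SPL

open Pool.Agent.U426.TU

section

variable {M : Type} [Field M] [NumberField M]
variable {E : Type} [Field E] [NumberField E] [Algebra M E]

/-- splitting criterion: `x` a local square at `v` which is a nonsquare in `M`, `E = M(√x)`. -/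
theorem splits_of_lSq (h2 : Module.finrank M E = 2) (v : HeightOneSpectrum (𝓞 M))
    (x : M) (z : E)
    (hz : z ^ 2 = algebraMap M E x) (hzM : z ∉ (algebraMap M E).range)
    (hv : LSq v x) : Splits E v := by
  obtain ⟨y, u, hxy, hy, h⟩ := hv
  have hyE : algebraMap M E y ≠ 0 := by simpa using hy
  -- replace `z` by `w = z / y`
  obtain ⟨w, hw, hwM⟩ : ∃ w : E, w ^ 2 = algebraMap M E u ∧ w ∉ (algebraMap M E).range := by
    refine ⟨z / algebraMap M E y, ?_, ?_⟩
    · rw [div_pow, hz, hxy, map_mul, map_pow]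
      field_simp
    · rintro ⟨t, ht⟩
      refine hzM ⟨t * y, ?_⟩
      rw [map_mul, ht]
      field_simp
  have h4' : v.valuation M (4 : M) ≠ 0 := by
    rw [Valuation.ne_zero_iff]; norm_num
  have hc : v.valuation M ((u - 1) / 4) < 1 := by
    rw [map_div₀, div_lt_one₀ (zero_lt_iff.mpr h4')]
    exact h
  obtain ⟨m, ⟨n, hn⟩, hnm⟩ := v.exists_primeCompl_mul_eq_of_integer ((u - 1) / 4) hc.le
  simp only at hnm
  have hnv : n ∉ v.asIdeal := hn
  have hnval : v.valuation M (algebraMap (𝓞 M) M n) = 1 :=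
    (HeightOneSpectrum.valuation_eq_one_iff_notMem v).mpr hnv
  have hmv : m ∈ v.asIdeal := by
    rw [← HeightOneSpectrum.valuation_lt_one_iff_mem (K := M)]
    change v.valuation M (algebraMap (𝓞 M) M m) < 1
    rw [← hnm, map_mul, hnval, mul_one]
    exact hc
  -- the element `Θ = n (1 + w) / 2`
  have h2E : (2 : E) ≠ 0 := two_ne_zero
  have hTheta : (algebraMap (𝓞 M) E n * ((1 + w) / 2)) ^ 2 =
      algebraMap (𝓞 M) E n * (algebraMap (𝓞 M) E n * ((1 + w) / 2)) +
        algebraMap (𝓞 M) E (n * m) := by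
    have e1 : algebraMap (𝓞 M) E m =
        (algebraMap M E u - 1) / 4 * algebraMap (𝓞 M) E n := by
      rw [IsScalarTower.algebraMap_apply (𝓞 M) M E m, ← hnm,
        IsScalarTower.algebraMap_apply (𝓞 M) M E n, map_mul, map_div₀, map_sub, map_one, map_ofNat]
    rw [map_mul, e1, ← hw]
    ring
  have hint : IsIntegral (𝓞 M) (algebraMap (𝓞 M) E n * ((1 + w) / 2)) := by
    refine ⟨Polynomial.X ^ 2 - (Polynomial.C n * Polynomial.X + Polynomial.C (n * m)), ?_, ?_⟩
    · refine Polynomial.monic_X_pow_sub ?_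
      exact lt_of_le_of_lt Polynomial.degree_linear_le (by norm_num)
    · simp only [Polynomial.eval₂_sub, Polynomial.eval₂_add, Polynomial.eval₂_mul,
        Polynomial.eval₂_pow, Polynomial.eval₂_X, Polynomial.eval₂_C]
      rw [hTheta, sub_self]
  have hintZ : IsIntegral ℤ (algebraMap (𝓞 M) E n * ((1 + w) / 2)) :=
    isIntegral_trans (R := ℤ) (A := 𝓞 M) _ hint
  obtain ⟨Θ, hΘ⟩ : ∃ Θ : 𝓞 E, algebraMap (𝓞 E) E Θ = algebraMap (𝓞 M) E n * ((1 + w) / 2) :=
    ⟨⟨_, hintZ⟩, rfl⟩
  set N : 𝓞 E := algebraMap (𝓞 M) (𝓞 E) n with hN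
  have hprod : Θ * (Θ - N) = algebraMap (𝓞 M) (𝓞 E) (n * m) := by
    apply FaithfulSMul.algebraMap_injective (𝓞 E) E
    rw [map_mul, map_sub, hN, ← IsScalarTower.algebraMap_apply, ← IsScalarTower.algebraMap_apply,
      hΘ]
    linear_combination hTheta
  have hmem : algebraMap (𝓞 M) (𝓞 E) (n * m) ∈
      v.asIdeal.map (algebraMap (𝓞 M) (𝓞 E)) :=
    Ideal.mem_map_of_mem _ (v.asIdeal.mul_mem_left _ hmv)
  -- traces
  have htrw : Algebra.trace M E w = 0 := trace_eq_zero_of_sq u w hw hwM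
  have htrΘ : Algebra.intTrace (𝓞 M) (𝓞 E) Θ = n := by
    apply FaithfulSMul.algebraMap_injective (𝓞 M) M
    rw [Algebra.algebraMap_intTrace (A := 𝓞 M) (K := M) (L := E) (B := 𝓞 E), hΘ]
    have e2 : algebraMap (𝓞 M) E n * ((1 + w) / 2) =
        (algebraMap (𝓞 M) M n / 2) • (1 : E) + (algebraMap (𝓞 M) M n / 2) • w := by
      rw [Algebra.smul_def, Algebra.smul_def, IsScalarTower.algebraMap_apply (𝓞 M) M E n, map_div₀,
        map_ofNat]
      ring
    rw [e2, map_add, map_smul, map_smul, htrw, smul_zero, add_zero]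
    have e3 : Algebra.trace M E (1 : E) = 2 := by
      have := Algebra.trace_algebraMap (R := M) (S := E) (1 : M)
      rw [map_one, h2] at this
      rw [this]; simp
    rw [e3, smul_eq_mul]
    field_simp
  have htrN : Algebra.intTrace (𝓞 M) (𝓞 E) N = 2 * n := by
    apply FaithfulSMul.algebraMap_injective (𝓞 M) M
    rw [Algebra.algebraMap_intTrace (A := 𝓞 M) (K := M) (L := E) (B := 𝓞 E), hN,
      ← IsScalarTower.algebraMap_apply (𝓞 M) (𝓞 E) E, IsScalarTower.algebraMap_apply (𝓞 M) M E,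
      Algebra.trace_algebraMap, h2, map_mul, map_ofNat, two_nsmul, two_mul]
  obtain ⟨P, hPv, hP⟩ := exists_over_mem v Θ (Θ - N) (by rw [hprod]; exact hmem) (by
    rw [map_sub, htrΘ, htrN]
    intro h
    apply hnv
    have := v.asIdeal.neg_mem h
    ring_nf at this
    exact this)
  obtain ⟨Q, hQv, hQ⟩ := exists_over_mem v (Θ - N) Θ (by rw [mul_comm, hprod]; exact hmem) (by
    rw [htrΘ]; exact hnv)
  refine ⟨P, Q, ?_, hPv, hQv⟩
  rintro rfl
  apply hnv
  have : N ∈ P.asIdeal := by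
    have := P.asIdeal.sub_mem hP hQ
    rwa [sub_sub_cancel] at this
  have h5 : n ∈ P.asIdeal.comap (algebraMap (𝓞 M) (𝓞 E)) := this
  rwa [hPv] at h5

end

theorem t_SPL : S_SPL := by
  intro M _ _ E _ _ _ h2 v x _ z hz hzM hl
  exact splits_of_lSq h2 v x z hz hzM hl

end Pool.Agent.U98.TU.SPL
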